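import Pool.Agent.H47.VC.Fg

/-!
# Prefix-closed automatic structures with uniqueness: central extensions, the same alphabet

(question Q1 of the problem file, for a fixed alphabet)

Idea: inside the Cayley graph of `G` over the given alphabet we first build a tree for the central
subgroup `N`, as in `MP_7de2ad_al.VirtuallyAbelian`: self-avoiding periodic rays from sparse base
points, one direction of `N` after the other (`N` is finitely generated because the section is
bounded). Every element `y` of `N` then lies on this tree, and we attach the translate by `y` of
the given tree `L` for `G / N`, each branch from the point where it leaves the tree of `N` for the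
last time. Since `L` is a section, different branches do not meet; since the section is bounded,
the fellow traveller property survives.

`value`, `multiplier`, `IsAutomaticStructure`, `PrefixClosed` and `Uniqueness` are defined in
`Pool/Agent/H47/CD/Tool.lean`, exactly as in `MP_7de2ad_al.LargeAlphabets`.
-/

namespace Pool.Agent.Results.MP_7de2ad_al.CentralExtensions

open Pool.Agent.H47.CD Pool.Agent.H47.VC

universe u v w

/-- Let `φ : G → Q` have central kernel, let the finite alphabet `A` generate `G` as a monoid, and
let `L` be a prefix-closed automatic structure with uniqueness on `Q` over `A` such that for every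
letter `a` only finitely many `n` in the kernel satisfy `value u * a = n * value v` for some `u`,
`v` in `L`. Then `G` has a prefix-closed automatic structure with uniqueness over `A`. -/
theorem result {G : Type u} [Group G] {Q : Type w} [Group Q] (φ : G →* Q)
    (hcentral : ∀ x ∈ φ.ker, ∀ g : G, x * g = g * x)
    {A : Type v} [Finite A] (ev : A → G) (hgen : Submonoid.closure (Set.range ev) = ⊤)
    (L : Language A) (hL : IsAutomaticStructure (fun a => φ (ev a)) L) (hpre : PrefixClosed L)
    (huniq : Uniqueness (fun a => φ (ev a)) L)
    (hbounded : ∀ a : A, Set.Finite {n : G | n ∈ φ.ker ∧ ∃ u ∈ L, ∃ v ∈ L,
      value ev u * ev a = n * value ev v}) :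
    ∃ T : Language A, IsAutomaticStructure ev T ∧ PrefixClosed T ∧ Uniqueness ev T :=
  central_bounded φ hcentral ev hgen L hL hpre huniq hbounded

end Pool.Agent.Results.MP_7de2ad_al.CentralExtensions
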