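import Pool.Agent.H47.CD.Min

/-!
# Prefix-closed automatic structures with uniqueness: coarsely dense path languages are enough

(question Q1 of the problem file, for a fixed alphabet)

Idea: among the words of `L` with the same value take the least one in the shortlex order; as `L`
is a path language, these words form a prefix-closed language, again with regular multipliers, now
mapping injectively to `G`: a tree coming within `K` letters of every element of `G`. For an
element at distance `j + 1` from the tree (measured by letters multiplied on the right) take the
least letter leading down to distance `j`; this prolongs the tree to a spanning tree. Whether an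
element is at distance at most `j` from the tree depends on finitely many translates of the tree,
each of which is recognised along the tree by the projection of a multiplier; so the new language
is regular, and it has the fellow traveller property because its words are those of the tree with
at most `K` letters added.

`value`, `multiplier`, `IsAutomaticStructure`, `PrefixClosed` and `Uniqueness` are defined in
`Pool/Agent/H47/CD/Tool.lean`, exactly as in `MP_7de2ad_al.LargeAlphabets`. The applications to
finite kernels and to subgroups of finite index are in `Pool/Agent/H47/CD/Cor.lean`.
-/

namespace Pool.Agent.Results.MP_7de2ad_al.CoarseTrees

open Pool.Agent.H47.CD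

universe u v

/-- Let the finite alphabet `A` generate the group `G` as a monoid, and let `L` be a regular
prefix-closed language over `A` with regular multipliers. Assume that `L` is a path language (for
words `u`, `v` of `L` with the same value, whenever `u a` is in `L` for a letter `a`, so is `v a`)
and that every element of `G` is the value of a word of `L` followed by at most `K` further
letters. Then there is a prefix-closed automatic structure with uniqueness over `A` which contains,
for each word of `L`, a word of `L` with the same value. -/
theorem result {G : Type u} [Group G] {A : Type v} [Finite A] (ev : A → G)
    (hgen : Submonoid.closure (Set.range ev) = ⊤)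
    (L : Language A) (hreg : L.IsRegular) (hmul : ∀ g : G, (multiplier ev L g).IsRegular)
    (hpre : PrefixClosed L)
    (hpath : ∀ u ∈ L, ∀ v ∈ L, value ev u = value ev v → ∀ a : A, u ++ [a] ∈ L → v ++ [a] ∈ L)
    (K : ℕ)
    (hdense : ∀ g : G, ∃ w ∈ L, ∃ z : List A, z.length ≤ K ∧ value ev w * value ev z = g) :
    ∃ T : Language A, (∀ w ∈ L, ∃ w' ∈ L, w' ∈ T ∧ value ev w' = value ev w) ∧
      IsAutomaticStructure ev T ∧ PrefixClosed T ∧ Uniqueness ev T :=
  path_dense ev hgen L hreg hmul hpre hpath K hdense

end Pool.Agent.Results.MP_7de2ad_al.CoarseTrees
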