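import Mathlib.Computability.NFA
import Mathlib.Data.List.Shortlex
import Mathlib.Algebra.Group.Submonoid.Membership
import Mathlib.Algebra.BigOperators.Group.List.Basic
import Mathlib.Data.Fintype.Option
import Mathlib.Algebra.Group.Pointwise.Finset.Basic
import Mathlib.Tactic.Group
import Mathlib.Tactic.Linarith
import Mathlib.Data.Set.Finite.Range
import Mathlib.Data.Set.Finite.Lemmas
import Mathlib.Data.Set.Finite.List

/-!
# Every automatic group has a prefix-closed automatic structure with uniqueness

(question Q2 of the problem file)

Idea: take an automatic structure with uniqueness `L` (shortlex-least representatives), accepted by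
a finite automaton. Fix for each live state `s` a word `y0 s` leading from `s` to acceptance, and a
number `R` larger than the lengths of all `y0 s`. Cut every word of `L` into blocks of length `R`
and a remainder of length less than `R`. A prefix of `L` made of `k` blocks and ending in state `s`
is a node; it is represented by the element of the group given by the prefix followed by `y0 s`.
A word of `L` whose remainder `y` differs from `y0 s` is attached as a leaf to its node. The new
letters are the group elements leading from node to node and from node to leaf; they range over a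
finite set. The resulting language is closed under taking prefixes, maps bijectively to the group,
is regular, and has the fellow traveller property, hence is again an automatic structure.
-/

namespace Pool.Agent.Results.MP_7de2ad_al.LargeAlphabets

universe u v w

/-! ### Definitions used in the statement -/

/-- The element of `G` represented by a word over an alphabet `A` mapped to `G` by `ev`. -/
def value {G : Type u} [Group G] {A : Type v} (ev : A → G) (w : List A) : G := (w.map ev).prod

/-- The set of padded pairs `(u, v)` of words of `L` with `u * g = v` in `G`. The padded pair of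
`u = a1 ... am` and `v = b1 ... bn` is the word of pairs `(a1, b1), (a2, b2), ...`, where the
shorter word is continued with the padding symbol `none`. -/
def multiplier {G : Type u} [Group G] {A : Type v} (ev : A → G) (L : Language A) (g : G) :
    Language (Option A × Option A) :=
  {w | ∃ u ∈ L, ∃ v ∈ L, value ev u * g = value ev v ∧ w = List.zipWithAll Prod.mk u v}

/-- `L` is (the language of) an automatic structure on `G` over the alphabet `A`, mapped to `G`
by `ev`: the letters generate `G` as a monoid, `L` is regular and maps onto `G`, and for `x` a
letter or the empty word the pairs `(u, v)` of words of `L` with `u x = v` in `G` are recognised by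
a finite automaton reading `u` and `v` synchronously. -/
structure IsAutomaticStructure {G : Type u} [Group G] {A : Type v} (ev : A → G)
    (L : Language A) : Prop where
  generates : Submonoid.closure (Set.range ev) = ⊤
  regular : L.IsRegular
  onto : ∀ g : G, ∃ w ∈ L, value ev w = g
  equality : (multiplier ev L 1).IsRegular
  multiply : ∀ x : A, (multiplier ev L (ev x)).IsRegular

/-- Every initial segment of a word of `L` lies in `L`. -/
def PrefixClosed {A : Type v} (L : Language A) : Prop :=
  ∀ u v : List A, v ∈ L → u <+: v → u ∈ L

/-- The words of `L` represent each element of `G` exactly once. -/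
def Uniqueness {G : Type u} [Group G] {A : Type v} (ev : A → G) (L : Language A) : Prop :=
  ∀ g : G, ∃! w : List A, w ∈ L ∧ value ev w = g

/-! ### Regular languages through folds -/

theorem isRegular_of_fold {α : Type u} {σ : Type v} [Finite σ] (step : σ → α → σ) (s0 : σ)
    (acc : Set σ) (L : Language α) (h : ∀ w : List α, w ∈ L ↔ w.foldl step s0 ∈ acc) :
    L.IsRegular := by
  classical
  rw [Language.isRegular_iff.{u, v}]
  have := Fintype.ofFinite σ
  refine ⟨σ, inferInstance, ⟨step, s0, acc⟩, ?_⟩
  ext w
  rw [h w, DFA.mem_accepts]
  rfl

theorem exists_fold {α : Type u} {L : Language α} (h : L.IsRegular) :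
    ∃ (σ : Type) (_ : Finite σ) (step : σ → α → σ) (s0 : σ) (acc : Set σ),
      ∀ w : List α, w ∈ L ↔ w.foldl step s0 ∈ acc := by
  obtain ⟨σ, hσ, M, rfl⟩ := h
  exact ⟨σ, Finite.of_fintype σ, M.step, M.start, M.accept, fun w => DFA.mem_accepts M⟩

/-- Preimages of regular languages under letter-to-letter-or-nothing maps are regular. -/
theorem isRegular_filterMap {α : Type u} {β : Type v} (f : β → Option α) {L : Language α}
    (h : L.IsRegular) (L' : Language β) (hL' : ∀ w : List β, w ∈ L' ↔ w.filterMap f ∈ L) :
    L'.IsRegular := by
  obtain ⟨σ, hσ, step, s0, acc, hacc⟩ := exists_fold h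
  refine isRegular_of_fold (fun s b => match f b with | none => s | some a => step s a) s0 acc L' ?_
  intro w
  rw [hL', hacc]
  have key : ∀ (w : List β) (s : σ), (w.filterMap f).foldl step s =
      w.foldl (fun s b => match f b with | none => s | some a => step s a) s := by
    intro w
    induction w with
    | nil => intro s; rfl
    | cons b w ih =>
      intro s
      cases hb : f b with
      | none => simp [hb, ih]
      | some a => simp [hb, ih]
  rw [key]

/-- Images of regular languages under letter-to-letter maps are regular. -/
theorem isRegular_image {α : Type u} {β : Type v} (f : α → β) {L : Language α}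
    (h : L.IsRegular) (L' : Language β) (hL' : ∀ w : List β, w ∈ L' ↔ ∃ x ∈ L, x.map f = w) :
    L'.IsRegular := by
  classical
  obtain ⟨σ, hσ, step, s0, acc, hacc⟩ := exists_fold h
  refine isRegular_of_fold (σ := Set σ)
    (fun S b => {t | ∃ s ∈ S, ∃ a, f a = b ∧ t = step s a}) {s0} {S | ∃ s ∈ S, s ∈ acc} L' ?_
  intro w
  rw [hL']
  have key : ∀ (w : List β) (S : Set σ) (t : σ),
      t ∈ w.foldl (fun S b => {t | ∃ s ∈ S, ∃ a, f a = b ∧ t = step s a}) S ↔
      ∃ s ∈ S, ∃ x : List α, x.map f = w ∧ t = x.foldl step s := by
    intro w
    induction w with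
    | nil =>
      intro S t
      simp only [List.foldl_nil, List.map_eq_nil_iff]
      constructor
      · intro ht
        exact ⟨t, ht, [], rfl, rfl⟩
      · rintro ⟨s, hs, x, rfl, rfl⟩
        exact hs
    | cons b w ih =>
      intro S t
      rw [List.foldl_cons, ih]
      constructor
      · rintro ⟨s', ⟨s, hs, a, ha, rfl⟩, x, hx, rfl⟩
        exact ⟨s, hs, a :: x, by simp [ha, hx], rfl⟩
      · rintro ⟨s, hs, x, hx, rfl⟩
        cases x with
        | nil => simp at hx
        | cons a x =>
          simp only [List.map_cons, List.cons.injEq] at hx
          exact ⟨step s a, ⟨s, hs, a, hx.1, rfl⟩, x, hx.2, rfl⟩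
  constructor
  · rintro ⟨x, hx, rfl⟩
    refine ⟨x.foldl step s0, ?_, (hacc x).1 hx⟩
    rw [key]
    exact ⟨s0, rfl, x, rfl, rfl⟩
  · rintro ⟨t, ht, htacc⟩
    rw [key] at ht
    obtain ⟨s, hs, x, hx, rfl⟩ := ht
    obtain rfl : s = s0 := hs
    exact ⟨x, (hacc x).2 htacc, hx⟩

theorem isRegular_and {α : Type u} {L1 L2 : Language α} (h1 : L1.IsRegular) (h2 : L2.IsRegular)
    (L : Language α) (h : ∀ w, w ∈ L ↔ w ∈ L1 ∧ w ∈ L2) : L.IsRegular := by
  have : L = L1 ⊓ L2 := by
    ext w
    rw [h w]
    rfl
  rw [this]
  exact h1.inf h2

theorem isRegular_diff {α : Type u} {L1 L2 : Language α} (h1 : L1.IsRegular) (h2 : L2.IsRegular)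
    (L : Language α) (h : ∀ w, w ∈ L ↔ w ∈ L1 ∧ w ∉ L2) : L.IsRegular := by
  refine isRegular_and h1 h2.compl L ?_
  intro w
  rw [h w]
  rfl

/-! ### Padded pairs -/

/-- the padded pair of two words -/
abbrev padPair {A : Type u} (u v : List A) : List (Option A × Option A) :=
  List.zipWithAll Prod.mk u v

theorem fst_padPair {A : Type u} (u v : List A) : (padPair u v).filterMap Prod.fst = u := by
  induction u generalizing v with
  | nil => 
    simp [padPair]
  | cons a u ih =>
    cases v with
    | nil => simp [padPair]
    | cons b v => simpa [padPair] using ih v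

theorem snd_padPair {A : Type u} (u v : List A) : (padPair u v).filterMap Prod.snd = v := by
  induction u generalizing v with
  | nil => simp [padPair]
  | cons a u ih =>
    cases v with
    | nil => simp [padPair]
    | cons b v => simpa [padPair] using ih v

theorem take_padPair {A : Type u} (u v : List A) (i : ℕ) :
    (padPair u v).take i = padPair (u.take i) (v.take i) := by
  induction u generalizing v i with
  | nil => simp [padPair, List.map_take]
  | cons a u ih =>
    cases v with
    | nil => simp [padPair, List.map_take]
    | cons b v =>
      cases i with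
      | zero => simp [padPair]
      | succ i => simpa [padPair] using ih v i


/-- modes of the automaton recognising padded pairs -/
inductive PadMode
  | both | left | right | dead

instance : Finite PadMode := by
  refine Finite.of_injective (β := Fin 4) (fun m => match m with
    | .both => 0 | .left => 1 | .right => 2 | .dead => 3) ?_
  intro a b
  cases a <;> cases b <;> simp

/-- transition function of the automaton recognising padded pairs -/
def padStep {A : Type u} : PadMode → Option A × Option A → PadMode
  | .both, (some _, some _) => .both
  | .both, (some _, none) => .left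
  | .both, (none, some _) => .right
  | .left, (some _, none) => .left
  | .right, (none, some _) => .right
  | _, _ => .dead

theorem padStep_dead {A : Type u} (w : List (Option A × Option A)) :
    w.foldl padStep .dead = .dead := by
  induction w with
  | nil => rfl
  | cons p w ih =>
    rw [List.foldl_cons]
    obtain ⟨a, b⟩ := p
    cases a <;> cases b <;> exact ih

theorem padStep_left {A : Type u} (w : List (Option A × Option A)) :
    w.foldl padStep .left ≠ .dead ↔ ∃ u : List A, w = padPair u [] := by
  induction w with
  | nil => 
    simp only [List.foldl_nil, ne_eq, reduceCtorEq, not_false_eq_true, true_iff]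
    exact ⟨[], by simp [padPair]⟩
  | cons p w ih =>
    rw [List.foldl_cons]
    obtain ⟨a, b⟩ := p
    cases a with
    | none =>
      cases b with
      | none =>
        simp only [padStep, padStep_dead, ne_eq, not_true_eq_false, false_iff]
        rintro ⟨u, hu⟩
        cases u <;> simp [padPair] at hu
      | some b =>
        simp only [padStep, padStep_dead, ne_eq, not_true_eq_false, false_iff]
        rintro ⟨u, hu⟩
        cases u <;> simp [padPair] at hu
    | some a =>
      cases b with
      | none =>
        simp only [padStep]
        rw [ih]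
        constructor
        · rintro ⟨u, rfl⟩
          exact ⟨a :: u, by simp [padPair]⟩
        · rintro ⟨u, hu⟩
          cases u with
          | nil => simp [padPair] at hu
          | cons a' u =>
            refine ⟨u, ?_⟩
            simp only [padPair, List.zipWithAll_nil, List.map_cons, List.cons.injEq] at hu ⊢
            exact hu.2
      | some b =>
        simp only [padStep, padStep_dead, ne_eq, not_true_eq_false, false_iff]
        rintro ⟨u, hu⟩
        cases u <;> simp [padPair] at hu

theorem padStep_right {A : Type u} (w : List (Option A × Option A)) :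
    w.foldl padStep .right ≠ .dead ↔ ∃ v : List A, w = padPair [] v := by
  induction w with
  | nil => 
    simp only [List.foldl_nil, ne_eq, reduceCtorEq, not_false_eq_true, true_iff]
    exact ⟨[], by simp [padPair]⟩
  | cons p w ih =>
    rw [List.foldl_cons]
    obtain ⟨a, b⟩ := p
    cases a with
    | some a =>
      cases b with
      | none =>
        simp only [padStep, padStep_dead, ne_eq, not_true_eq_false, false_iff]
        rintro ⟨u, hu⟩
        cases u <;> simp [padPair] at hu
      | some b =>
        simp only [padStep, padStep_dead, ne_eq, not_true_eq_false, false_iff]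
        rintro ⟨u, hu⟩
        cases u <;> simp [padPair] at hu
    | none =>
      cases b with
      | some b =>
        simp only [padStep]
        rw [ih]
        constructor
        · rintro ⟨u, rfl⟩
          exact ⟨b :: u, by simp [padPair]⟩
        · rintro ⟨u, hu⟩
          cases u with
          | nil => simp [padPair] at hu
          | cons a' u =>
            refine ⟨u, ?_⟩
            simp only [padPair, List.nil_zipWithAll, List.map_cons, List.cons.injEq] at hu ⊢
            exact hu.2
      | none =>
        simp only [padStep, padStep_dead, ne_eq, not_true_eq_false, false_iff]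
        rintro ⟨u, hu⟩
        cases u <;> simp [padPair] at hu

theorem padStep_both {A : Type u} (w : List (Option A × Option A)) :
    w.foldl padStep .both ≠ .dead ↔ ∃ u v : List A, w = padPair u v := by
  induction w with
  | nil => 
    simp only [List.foldl_nil, ne_eq, reduceCtorEq, not_false_eq_true, true_iff]
    exact ⟨[], [], by simp [padPair]⟩
  | cons p w ih =>
    rw [List.foldl_cons]
    obtain ⟨a, b⟩ := p
    cases a with
    | none =>
      cases b with
      | none =>
        simp only [padStep, padStep_dead, ne_eq, not_true_eq_false, false_iff]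
        rintro ⟨u, v, hu⟩
        cases u <;> cases v <;> simp [padPair] at hu
      | some b =>
        simp only [padStep]
        rw [padStep_right]
        constructor
        · rintro ⟨v, rfl⟩
          exact ⟨[], b :: v, by simp [padPair]⟩
        · rintro ⟨u, v, hu⟩
          cases u with
          | nil =>
            cases v with
            | nil => simp [padPair] at hu
            | cons b' v =>
              refine ⟨v, ?_⟩
              simp only [padPair, List.nil_zipWithAll, List.map_cons, List.cons.injEq] at hu ⊢
              exact hu.2
          | cons a u => cases v <;> simp [padPair] at hu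
    | some a =>
      cases b with
      | none =>
        simp only [padStep]
        rw [padStep_left]
        constructor
        · rintro ⟨v, rfl⟩
          exact ⟨a :: v, [], by simp [padPair]⟩
        · rintro ⟨u, v, hu⟩
          cases u with
          | nil => cases v <;> simp [padPair] at hu
          | cons a' u =>
            cases v with
            | nil =>
              refine ⟨u, ?_⟩
              simp only [padPair, List.zipWithAll_nil, List.map_cons, List.cons.injEq] at hu ⊢
              exact hu.2
            | cons b' v => simp [padPair] at hu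
      | some b =>
        simp only [padStep]
        rw [ih]
        constructor
        · rintro ⟨u, v, rfl⟩
          exact ⟨a :: u, b :: v, by simp [padPair]⟩
        · rintro ⟨u, v, hu⟩
          cases u with
          | nil => cases v <;> simp [padPair] at hu
          | cons a' u =>
            cases v with
            | nil => simp [padPair] at hu
            | cons b' v =>
              refine ⟨u, v, ?_⟩
              simp only [padPair, List.zipWithAll_cons_cons, List.cons.injEq] at hu ⊢
              exact hu.2

theorem isRegular_pads (A : Type u) (L : Language (Option A × Option A))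
    (hL : ∀ w, w ∈ L ↔ ∃ u v : List A, w = padPair u v) : L.IsRegular := by
  refine isRegular_of_fold padStep .both {m | m ≠ .dead} L ?_
  intro w
  rw [hL w, ← padStep_both]
  rfl

variable {G : Type u} [Group G] {A : Type v}

@[simp] theorem value_nil (ev : A → G) : value ev [] = 1 := rfl

@[simp] theorem value_cons (ev : A → G) (a : A) (w : List A) :
    value ev (a :: w) = ev a * value ev w := by
  simp [value]

@[simp] theorem value_append (ev : A → G) (u v : List A) :
    value ev (u ++ v) = value ev u * value ev v := by
  simp [value]

theorem value_map {B : Type w} (ev : A → G) (ew : B → G) (f : A → B) (h : ∀ a, ew (f a) = ev a)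
    (u : List A) : value ew (u.map f) = value ev u := by
  induction u with
  | nil => rfl
  | cons a u ih => simp [h, ih]

/-- Fellow traveller property for pairs of words of `L` differing by `g`: the word differences
stay in a finite set. -/
def FT (ev : A → G) (L : Language A) (g : G) : Prop :=
  ∃ D : Set G, D.Finite ∧ ∀ u ∈ L, ∀ v ∈ L, value ev u * g = value ev v →
    ∀ i : ℕ, (value ev (u.take i))⁻¹ * value ev (v.take i) ∈ D

theorem FT_of_regular (ev : A → G) (L : Language A) (g : G) (h : (multiplier ev L g).IsRegular) :
    FT ev L g := by
  classical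
  obtain ⟨σ, hσ, step, s0, acc, hacc⟩ := exists_fold h
  -- a completion for each live state
  have hc : ∀ s : σ, ∃ c : List (Option A × Option A),
      (∃ c' : List (Option A × Option A), c'.foldl step s ∈ acc) → c.foldl step s ∈ acc := by
    intro s
    by_cases hs : ∃ c' : List (Option A × Option A), c'.foldl step s ∈ acc
    · obtain ⟨c', hc'⟩ := hs
      exact ⟨c', fun _ => hc'⟩
    · exact ⟨[], fun h' => absurd h' hs⟩
  choose c hc using hc
  refine ⟨Set.range (fun s : σ => value ev ((c s).filterMap Prod.fst) * g *
    (value ev ((c s).filterMap Prod.snd))⁻¹), Set.finite_range _, ?_⟩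
  intro u hu v hv huv i
  set p := padPair u v with hp
  have hpm : p ∈ multiplier ev L g := ⟨u, hu, v, hv, huv, rfl⟩
  have hpa : p.foldl step s0 ∈ acc := (hacc p).1 hpm
  set s := (p.take i).foldl step s0 with hs
  have hlive : ∃ c' : List (Option A × Option A), c'.foldl step s ∈ acc := by
    refine ⟨p.drop i, ?_⟩
    rw [hs, ← List.foldl_append, List.take_append_drop]
    exact hpa
  have h1 : (p.take i ++ c s) ∈ multiplier ev L g := by
    rw [hacc, List.foldl_append]
    exact hc s hlive
  obtain ⟨u', hu', v', hv', huv', heq⟩ := h1
  have e1 : u' = u.take i ++ (c s).filterMap Prod.fst := by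
    have := congrArg (List.filterMap Prod.fst) heq
    rw [show List.zipWithAll Prod.mk u' v' = padPair u' v' from rfl, fst_padPair,
      List.filterMap_append, hp, take_padPair, fst_padPair] at this
    exact this.symm
  have e2 : v' = v.take i ++ (c s).filterMap Prod.snd := by
    have := congrArg (List.filterMap Prod.snd) heq
    rw [show List.zipWithAll Prod.mk u' v' = padPair u' v' from rfl, snd_padPair,
      List.filterMap_append, hp, take_padPair, snd_padPair] at this
    exact this.symm
  refine ⟨s, ?_⟩
  simp only
  rw [e1, e2, value_append, value_append] at huv'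
  rw [mul_inv_eq_iff_eq_mul, mul_assoc, ← huv']
  group

theorem FT_mul (ev : A → G) (L : Language A) (onto : ∀ g : G, ∃ w ∈ L, value ev w = g) (g h : G)
    (hg : FT ev L g) (hh : FT ev L h) : FT ev L (g * h) := by
  classical
  obtain ⟨D, hD, hD'⟩ := hg
  obtain ⟨E, hE, hE'⟩ := hh
  refine ⟨Set.image2 (· * ·) D E, hD.image2 _ hE, ?_⟩
  intro u hu v hv huv i
  obtain ⟨w, hw, hwv⟩ := onto (value ev u * g)
  have h1 := hD' u hu w hw hwv.symm i
  have h2 := hE' w hw v hv (by rw [hwv, ← huv, mul_assoc]) i
  refine ⟨_, h1, _, h2, ?_⟩
  simp only
  group

theorem FT_all (ev : A → G) (L : Language A) (h : IsAutomaticStructure ev L) (g : G) :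
    FT ev L g := by
  have hg : g ∈ Submonoid.closure (Set.range ev) := by rw [h.generates]; trivial
  induction hg using Submonoid.closure_induction with
  | mem x hx =>
    obtain ⟨a, rfl⟩ := hx
    exact FT_of_regular ev L _ (h.multiply a)
  | one => exact FT_of_regular ev L _ h.equality
  | mul x y _ _ hx hy => exact FT_mul ev L h.onto x y hx hy

theorem FT_mono (ev : A → G) (L L' : Language A) (hL : ∀ w, w ∈ L' → w ∈ L) (g : G)
    (h : FT ev L g) : FT ev L' g := by
  obtain ⟨D, hD, hD'⟩ := h
  exact ⟨D, hD, fun u hu v hv => hD' u (hL u hu) v (hL v hv)⟩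

/-! ### from the fellow traveller property back to regularity -/

/-- the word difference of a list of pairs of letters-or-padding -/
def wdiff (ev : A → G) (w : List (Option A × Option A)) : G :=
  (value ev (w.filterMap Prod.fst))⁻¹ * value ev (w.filterMap Prod.snd)

/-- value of an optional letter -/
def oval (ev : A → G) : Option A → G
  | none => 1
  | some a => ev a

open Classical in
/-- step of the word difference automaton -/
noncomputable def diffStep (ev : A → G) (D : Set G) (s : Option D) (p : Option A × Option A) :
    Option D :=
  match s with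
  | none => none
  | some d =>
    if h : (oval ev p.1)⁻¹ * (d : G) * oval ev p.2 ∈ D then
      some ⟨(oval ev p.1)⁻¹ * (d : G) * oval ev p.2, h⟩ else none

theorem diffStep_none (ev : A → G) (D : Set G) (w : List (Option A × Option A)) :
    w.foldl (diffStep ev D) none = none := by
  induction w with
  | nil => rfl
  | cons p w ih => exact ih

theorem value_filterMap_fst (ev : A → G) (p : Option A × Option A)
    (w : List (Option A × Option A)) :
    value ev ((p :: w).filterMap Prod.fst) = oval ev p.1 * value ev (w.filterMap Prod.fst) := by
  obtain ⟨a, b⟩ := p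
  cases a <;> simp [oval]

theorem value_filterMap_snd (ev : A → G) (p : Option A × Option A)
    (w : List (Option A × Option A)) :
    value ev ((p :: w).filterMap Prod.snd) = oval ev p.2 * value ev (w.filterMap Prod.snd) := by
  obtain ⟨a, b⟩ := p
  cases b <;> simp [oval]

theorem diffStep_iff (ev : A → G) (D : Set G) (w : List (Option A × Option A)) (d e : D) :
    w.foldl (diffStep ev D) (some d) = some e ↔
      (∀ i : ℕ, (value ev ((w.take i).filterMap Prod.fst))⁻¹ * (d : G) *
        value ev ((w.take i).filterMap Prod.snd) ∈ D) ∧
      (value ev (w.filterMap Prod.fst))⁻¹ * (d : G) * value ev (w.filterMap Prod.snd) = e := by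
  classical
  induction w generalizing d with
  | nil =>
    simp only [List.foldl_nil, Option.some.injEq, List.take_nil, List.filterMap_nil, value_nil,
      inv_one, one_mul, mul_one, forall_const, Subtype.coe_prop, true_and]
    exact Subtype.ext_iff
  | cons p w ih =>
    rw [List.foldl_cons]
    by_cases h : (oval ev p.1)⁻¹ * (d : G) * oval ev p.2 ∈ D
    · have hs : diffStep ev D (some d) p = some ⟨(oval ev p.1)⁻¹ * (d : G) * oval ev p.2, h⟩ := by
        simp [diffStep, h]
      rw [hs, ih]
      simp only [value_filterMap_fst, value_filterMap_snd]
      constructor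
      · rintro ⟨h1, h2⟩
        refine ⟨?_, ?_⟩
        · intro i
          cases i with
          | zero => simp
          | succ i =>
            have := h1 i
            rw [List.take_succ_cons, value_filterMap_fst, value_filterMap_snd]
            convert this using 1
            group
        · rw [← h2]
          group
      · rintro ⟨h1, h2⟩
        refine ⟨?_, ?_⟩
        · intro i
          have := h1 (i + 1)
          rw [List.take_succ_cons, value_filterMap_fst, value_filterMap_snd] at this
          convert this using 1
          group
        · rw [← h2]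
          group
    · have hs : diffStep ev D (some d) p = none := by
        simp [diffStep, h]
      rw [hs, diffStep_none]
      simp only [reduceCtorEq, false_iff, not_and]
      intro h1
      exfalso
      apply h
      have := h1 1
      rw [List.take_succ_cons, value_filterMap_fst, value_filterMap_snd] at this
      simpa using this

theorem regular_of_FT (ev : A → G) (L : Language A) (hL : L.IsRegular) (g : G)
    (h : FT ev L g) : (multiplier ev L g).IsRegular := by
  classical
  obtain ⟨D0, hD0, hD'⟩ := h
  -- enlarge the set of differences
  set D : Set G := D0 ∪ {1, g} with hDdef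
  have hDfin : D.Finite := hD0.union (by simp)
  have : Finite D := hDfin
  have h1 : (1 : G) ∈ D := by simp [hDdef]
  have h2 : g ∈ D := by simp [hDdef]
  -- the tracker language
  set T : Language (Option A × Option A) :=
    {w | w.foldl (diffStep ev D) (some ⟨1, h1⟩) = some ⟨g, h2⟩} with hT
  have hTreg : T.IsRegular := by
    refine isRegular_of_fold (diffStep ev D) (some ⟨1, h1⟩) {some ⟨g, h2⟩} T ?_
    intro w
    rfl
  set P : Language (Option A × Option A) := {w | ∃ u v : List A, w = padPair u v} with hP
  have hPreg : P.IsRegular := isRegular_pads A P (fun w => Iff.rfl)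
  set L1 : Language (Option A × Option A) := {w | w.filterMap Prod.fst ∈ L} with hL1
  have hL1reg : L1.IsRegular := isRegular_filterMap Prod.fst hL L1 (fun w => Iff.rfl)
  set L2 : Language (Option A × Option A) := {w | w.filterMap Prod.snd ∈ L} with hL2
  have hL2reg : L2.IsRegular := isRegular_filterMap Prod.snd hL L2 (fun w => Iff.rfl)
  have h12 : (L1 ⊓ L2).IsRegular := hL1reg.inf hL2reg
  have hPT : (P ⊓ T).IsRegular := hPreg.inf hTreg
  refine isRegular_and h12 hPT _ ?_
  intro w
  constructor
  · rintro ⟨u, hu, v, hv, huv, rfl⟩
    refine ⟨⟨?_, ?_⟩, ⟨u, v, rfl⟩, ?_⟩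
    · change (padPair u v).filterMap Prod.fst ∈ L
      rw [fst_padPair]; exact hu
    · change (padPair u v).filterMap Prod.snd ∈ L
      rw [snd_padPair]; exact hv
    · change (padPair u v).foldl (diffStep ev D) (some ⟨1, h1⟩) = some ⟨g, h2⟩
      rw [diffStep_iff]
      refine ⟨?_, ?_⟩
      · intro i
        rw [take_padPair, fst_padPair, snd_padPair]
        left
        simpa using hD' u hu v hv huv i
      · rw [fst_padPair, snd_padPair]
        simp only [mul_one]
        rw [← huv]
        group
  · rintro ⟨⟨hu, hv⟩, ⟨u, v, rfl⟩, ht⟩
    change (padPair u v).filterMap Prod.fst ∈ L at hu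
    change (padPair u v).filterMap Prod.snd ∈ L at hv
    change (padPair u v).foldl (diffStep ev D) (some ⟨1, h1⟩) = some ⟨g, h2⟩ at ht
    rw [fst_padPair] at hu
    rw [snd_padPair] at hv
    rw [diffStep_iff, fst_padPair, snd_padPair] at ht
    refine ⟨u, hu, v, hv, ?_, rfl⟩
    have h3 : (value ev u)⁻¹ * 1 * value ev v = g := ht.2
    rw [← h3]
    group

/-- A regular language mapping onto `G` with the fellow traveller property is an automatic
structure. -/
theorem automatic_of_FT (ev : A → G) (L : Language A)
    (hgen : Submonoid.closure (Set.range ev) = ⊤) (hL : L.IsRegular)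
    (onto : ∀ g : G, ∃ w ∈ L, value ev w = g) (h : ∀ g, FT ev L g) :
    IsAutomaticStructure ev L where
  generates := hgen
  regular := hL
  onto := onto
  equality := regular_of_FT ev L hL 1 (h 1)
  multiply _ := regular_of_FT ev L hL _ (h _)


/-- states of the automaton comparing two words in the shortlex order -/
inductive Cmp
  | eq | lt | gt | sh | lo

instance : Finite Cmp := by
  refine Finite.of_injective (β := Fin 5) (fun m => match m with
    | .eq => 0 | .lt => 1 | .gt => 2 | .sh => 3 | .lo => 4) ?_
  intro a b
  cases a <;> cases b <;> simp

/-- step of the automaton comparing two words in the shortlex order -/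
def cmpStep (f : A → ℕ) (c : Cmp) (p : Option A × Option A) : Cmp :=
  match p.1, p.2 with
  | some a, some b => match c with
    | .eq => if f b < f a then .lt else if f a < f b then .gt else .eq
    | c => c
  | some _, none => .sh
  | none, some _ => .lo
  | none, none => c

theorem cmp_sh (f : A → ℕ) (u : List A) :
    (u.map fun a => ((some a, none) : Option A × Option A)).foldl (cmpStep f) .sh = .sh := by
  induction u with
  | nil => rfl
  | cons a u ih => simpa [cmpStep] using ih

theorem cmp_lo (f : A → ℕ) (u : List A) :
    (u.map fun a => ((none, some a) : Option A × Option A)).foldl (cmpStep f) .lo = .lo := by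
  induction u with
  | nil => rfl
  | cons a u ih => simpa [cmpStep] using ih

theorem cmp_left (f : A → ℕ) (a : A) (u : List A) (c : Cmp) :
    (padPair (a :: u) []).foldl (cmpStep f) c = .sh := by
  have := cmp_sh f u
  simpa [padPair, cmpStep] using this

theorem cmp_right (f : A → ℕ) (a : A) (u : List A) (c : Cmp) :
    (padPair [] (a :: u)).foldl (cmpStep f) c = .lo := by
  have := cmp_lo f u
  simpa [padPair, cmpStep] using this

theorem cmp_lt (f : A → ℕ) (u v : List A) :
    ((padPair u v).foldl (cmpStep f) .lt = .lt ∨ (padPair u v).foldl (cmpStep f) .lt = .sh) ↔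
      v.length ≤ u.length := by
  induction u generalizing v with
  | nil =>
    cases v with
    | nil => simp [padPair]
    | cons b v => rw [cmp_right]; simp
  | cons a u ih =>
    cases v with
    | nil => rw [cmp_left]; simp
    | cons b v => simpa [padPair, cmpStep] using ih v

theorem cmp_gt (f : A → ℕ) (u v : List A) :
    ((padPair u v).foldl (cmpStep f) .gt = .lt ∨ (padPair u v).foldl (cmpStep f) .gt = .sh) ↔
      v.length < u.length := by
  induction u generalizing v with
  | nil =>
    cases v with
    | nil => simp [padPair]
    | cons b v => rw [cmp_right]; simp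
  | cons a u ih =>
    cases v with
    | nil => rw [cmp_left]; simp
    | cons b v => simpa [padPair, cmpStep] using ih v

theorem cmp_eq (f : A → ℕ) (hf : Function.Injective f) (u v : List A) :
    ((padPair u v).foldl (cmpStep f) .eq = .lt ∨ (padPair u v).foldl (cmpStep f) .eq = .sh) ↔
      List.Shortlex (fun a b => f a < f b) v u := by
  induction u generalizing v with
  | nil =>
    cases v with
    | nil => simp [padPair]
    | cons b v => rw [cmp_right]; simp
  | cons a u ih =>
    cases v with
    | nil => 
      simp only [cmp_left, reduceCtorEq, or_true, true_iff]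
      exact List.Shortlex.of_length_lt (by simp)
    | cons b v =>
      rcases lt_trichotomy (f b) (f a) with h | h | h
      · have h1 : (padPair (a :: u) (b :: v)).foldl (cmpStep f) .eq =
            (padPair u v).foldl (cmpStep f) .lt := by
          simp [padPair, cmpStep, h]
        rw [h1, cmp_lt, List.shortlex_def]
        constructor
        · intro h2
          rcases Nat.lt_or_ge v.length u.length with h3 | h3
          · left; simpa using h3
          · right
            refine ⟨by simp; omega, ?_⟩
            exact List.Lex.rel h
        · rintro (h2 | ⟨h2, -⟩)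
          · simp at h2; omega
          · simp at h2; omega
      · have hab : b = a := hf h
        subst hab
        have h1 : (padPair (b :: u) (b :: v)).foldl (cmpStep f) .eq =
            (padPair u v).foldl (cmpStep f) .eq := by
          simp [padPair, cmpStep]
        have : Std.Irrefl (fun a b : A => f a < f b) := ⟨fun a => lt_irrefl _⟩
        rw [h1, ih, List.shortlex_cons_iff]
      · have h1 : (padPair (a :: u) (b :: v)).foldl (cmpStep f) .eq =
            (padPair u v).foldl (cmpStep f) .gt := by
          simp [padPair, cmpStep, h, not_lt.2 h.le]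
        rw [h1, cmp_gt, List.shortlex_def]
        constructor
        · intro h2
          left; simpa using h2
        · rintro (h2 | ⟨h2, h3⟩)
          · simpa using h2
          · exfalso
            cases h3 with
            | cons h4 => exact lt_irrefl _ h
            | rel h4 => exact absurd h4 (not_lt.2 h.le)

theorem map_fst_padPair (u v : List A) (h : v.length ≤ u.length) :
    (padPair u v).map Prod.fst = u.map some := by
  induction u generalizing v with
  | nil =>
    cases v with
    | nil => rfl
    | cons b v => simp at h
  | cons a u ih =>
    cases v with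
    | nil => simp [padPair, Function.comp_def]
    | cons b v =>
      simp only [List.length_cons, add_le_add_iff_right] at h
      simpa [padPair] using ih v h

/-- Passing to shortlex-least representatives. -/
theorem exists_unique_sub [Finite A] (ev : A → G) (L : Language A)
    (h : IsAutomaticStructure ev L) :
    ∃ L' : Language A, (∀ w, w ∈ L' → w ∈ L) ∧ L'.IsRegular ∧
      (∀ g : G, ∃ w ∈ L', value ev w = g) ∧
      (∀ u ∈ L', ∀ v ∈ L', value ev u = value ev v → u = v) := by
  classical
  obtain ⟨n, ⟨e⟩⟩ := Finite.exists_equiv_fin A
  set f : A → ℕ := fun a => (e a : ℕ) with hfdef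
  have hf : Function.Injective f := fun a b hab => e.injective (Fin.ext hab)
  set r : A → A → Prop := fun a b => f a < f b with hr
  have hwf : WellFounded r := InvImage.wf f Nat.lt_wfRel.wf
  have hwfs : WellFounded (List.Shortlex r) := List.Shortlex.wf hwf
  have : Std.Trichotomous r := ⟨fun a b h1 h2 => hf (le_antisymm (not_lt.1 h2) (not_lt.1 h1))⟩
  set L' : Language A := {u | u ∈ L ∧ ∀ v ∈ L, value ev v = value ev u →
    ¬ List.Shortlex r v u} with hL'
  refine ⟨L', fun w hw => hw.1, ?_, ?_, ?_⟩
  · -- regularity
    set S : Language (Option A × Option A) :=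
      {w | w.foldl (cmpStep f) .eq = .lt ∨ w.foldl (cmpStep f) .eq = .sh} with hS
    have hSreg : S.IsRegular := by
      refine isRegular_of_fold (cmpStep f) .eq {c | c = .lt ∨ c = .sh} S ?_
      intro w
      rfl
    have hES : (multiplier ev L 1 ⊓ S).IsRegular := h.equality.inf hSreg
    set I : Language (Option A) := {x | ∃ w ∈ multiplier ev L 1 ⊓ S, w.map Prod.fst = x} with hI
    have hIreg : I.IsRegular := isRegular_image Prod.fst hES I (fun w => Iff.rfl)
    set Bad : Language A := {u | u.filterMap (fun a => some (some a)) ∈ I} with hBad
    have hBadreg : Bad.IsRegular :=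
      isRegular_filterMap (fun a => some (some a)) hIreg Bad (fun w => Iff.rfl)
    refine isRegular_diff h.regular hBadreg L' ?_
    intro u
    have key : u ∈ Bad ↔ (u ∈ L ∧ ∃ v ∈ L, value ev v = value ev u ∧ List.Shortlex r v u) := by
      constructor
      · intro hu
        change u.filterMap (fun a => some (some a)) ∈ I at hu
        obtain ⟨w, ⟨⟨u', hu', v, hv, huv, rfl⟩, hw2⟩, hw3⟩ := hu
        change (padPair u' v).foldl (cmpStep f) .eq = .lt ∨
          (padPair u' v).foldl (cmpStep f) .eq = .sh at hw2
        rw [cmp_eq f hf] at hw2
        have hlen : v.length ≤ u'.length := by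
          rcases List.shortlex_def.1 hw2 with h3 | h3
          · exact h3.le
          · exact h3.1.le
        have h4 : u'.map some = u.map some := by
          rw [← map_fst_padPair u' v hlen]
          rw [show (padPair u' v) = List.zipWithAll Prod.mk u' v from rfl, hw3]
          induction u with
          | nil => rfl
          | cons a u ih => simp
        have h5 : u' = u := List.map_injective_iff.2 (Option.some_injective A) h4
        subst h5
        refine ⟨hu', v, hv, ?_, hw2⟩
        rw [← huv, mul_one]
      · rintro ⟨hu, v, hv, hvu, hlex⟩
        change u.filterMap (fun a => some (some a)) ∈ I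
        have hlen : v.length ≤ u.length := by
          rcases List.shortlex_def.1 hlex with h3 | h3
          · exact h3.le
          · exact h3.1.le
        refine ⟨padPair u v, ⟨⟨u, hu, v, hv, by rw [hvu, mul_one], rfl⟩, ?_⟩, ?_⟩
        · change (padPair u v).foldl (cmpStep f) .eq = .lt ∨
            (padPair u v).foldl (cmpStep f) .eq = .sh
          rw [cmp_eq f hf]
          exact hlex
        · rw [map_fst_padPair u v hlen]
          induction u with
          | nil => rfl
          | cons a u ih => simp
    rw [key]
    constructor
    · rintro ⟨h1, h2⟩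
      refine ⟨h1, ?_⟩
      rintro ⟨-, v, hv, hvu, hlex⟩
      exact h2 v hv hvu hlex
    · rintro ⟨h1, h2⟩
      refine ⟨h1, fun v hv hvu hlex => h2 ⟨h1, v, hv, hvu, hlex⟩⟩
  · intro g
    have hne : ({w : List A | w ∈ L ∧ value ev w = g}).Nonempty := by
      obtain ⟨w, hw, hwg⟩ := h.onto g
      exact ⟨w, hw, hwg⟩
    refine ⟨hwfs.min _ hne, ⟨(hwfs.min_mem _ hne).1, ?_⟩, (hwfs.min_mem _ hne).2⟩
    intro v hv hvg
    exact hwfs.not_lt_min _ (show v ∈ {w : List A | w ∈ L ∧ value ev w = g} from
      ⟨hv, hvg.trans (hwfs.min_mem _ hne).2⟩)
  · intro u hu v hv huv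
    have h1 := hu.2 v hv.1 huv.symm
    have h2 := hv.2 u hu.1 huv
    exact Std.Trichotomous.trichotomous (r := List.Shortlex r) u v h2 h1

section Block

variable {G : Type u} [Group G] {A : Type v} {σ : Type w}
variable (ev : A → G) (step : σ → A → σ) (acc : Set σ) (y0 : σ → List A) (R : ℕ)

/-- a state from which an accepting state can be reached -/
def Live (s : σ) : Prop := ∃ x : List A, x.foldl step s ∈ acc

/-- the new letters: a state together with a word of length at most `R` -/
abbrev Letter (σ : Type w) (A : Type v) (R : ℕ) := σ × {u : List A // u.length ≤ R}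

/-- the group element represented by a new letter -/
def lv (p : Letter σ A R) : G :=
  (value ev (y0 p.1))⁻¹ * value ev p.2.1 *
    (if p.2.1.length = R then value ev (y0 (p.2.1.foldl step p.1)) else 1)

/-- the new language, started at a state -/
def Valid : σ → List (Letter σ A R) → Prop
  | _, [] => True
  | s, p :: w => p.1 = s ∧
      ((p.2.1.length = R ∧ Live step acc (p.2.1.foldl step s) ∧
          Valid (p.2.1.foldl step s) w) ∨
        (p.2.1.length < R ∧ p.2.1.foldl step s ∈ acc ∧ p.2.1 ≠ y0 s ∧ w = []))

/-- the word of the old language coded by a new word -/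
def dec : σ → List (Letter σ A R) → List A
  | s, [] => y0 s
  | s, p :: w => if p.2.1.length = R then p.2.1 ++ dec (p.2.1.foldl step s) w else p.2.1

variable {step acc y0 R}

theorem dec_mem (hy : ∀ s, Live step acc s → (y0 s).foldl step s ∈ acc)
    (w : List (Letter σ A R)) (s : σ) (hs : Live step acc s)
    (hw : Valid step acc y0 R s w) : (dec step y0 R s w).foldl step s ∈ acc := by
  induction w generalizing s with
  | nil => exact hy s hs
  | cons p w ih =>
    obtain ⟨h1, ⟨h2, h3, h4⟩ | ⟨h2, h3, h4, h5⟩⟩ := hw
    · simp only [dec, h2, if_true, List.foldl_append]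
      exact ih _ h3 h4
    · simp only [dec, h2.ne, if_false]
      exact h3

theorem value_lv (w : List (Letter σ A R)) (s : σ) (hw : Valid step acc y0 R s w) :
    value (lv ev step y0 R) w = (value ev (y0 s))⁻¹ * value ev (dec step y0 R s w) := by
  induction w generalizing s with
  | nil => simp [dec]
  | cons p w ih =>
    obtain ⟨rfl, ⟨h2, h3, h4⟩ | ⟨h2, h3, h4, rfl⟩⟩ := hw
    · rw [value_cons, ih _ h4]
      simp only [lv, dec, h2, if_true, value_append]
      group
    · simp [lv, dec, h2.ne]

theorem dec_injective (hR : ∀ s, (y0 s).length < R) (w w' : List (Letter σ A R)) (s : σ)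
    (hw : Valid step acc y0 R s w) (hw' : Valid step acc y0 R s w')
    (h : dec step y0 R s w = dec step y0 R s w') : w = w' := by
  induction w generalizing s w' with
  | nil =>
    cases w' with
    | nil => rfl
    | cons p' w' =>
      exfalso
      obtain ⟨rfl, ⟨h2, h3, h4⟩ | ⟨h2, h3, h4, rfl⟩⟩ := hw'
      · simp only [dec, h2, if_true] at h
        have := congrArg List.length h
        rw [List.length_append] at this
        have := hR p'.1
        omega
      · simp only [dec, h2.ne, if_false] at h
        exact h4 h.symm
  | cons p w ih =>
    cases w' with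
    | nil =>
      exfalso
      obtain ⟨rfl, ⟨h2, h3, h4⟩ | ⟨h2, h3, h4, rfl⟩⟩ := hw
      · simp only [dec, h2, if_true] at h
        have := congrArg List.length h
        rw [List.length_append] at this
        have := hR p.1
        omega
      · simp only [dec, h2.ne, if_false] at h
        exact h4 h
    | cons p' w' =>
      obtain ⟨h1, ⟨h2, h3, h4⟩ | ⟨h2, h3, h4, h5⟩⟩ := hw
      · obtain ⟨h1', ⟨h2', h3', h4'⟩ | ⟨h2', h3', h4', h5'⟩⟩ := hw'
        · simp only [dec, h2, h2', if_true] at h
          obtain ⟨h5, h6⟩ := List.append_inj h (by rw [h2, h2'])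
          have hp : p = p' := Prod.ext (h1.trans h1'.symm) (Subtype.ext h5)
          subst hp
          rw [ih w' _ h4 h4' h6]
        · exfalso
          simp only [dec, h2, h2'.ne, if_true, if_false] at h
          have := congrArg List.length h
          rw [List.length_append] at this
          omega
      · obtain ⟨h1', ⟨h2', h3', h4'⟩ | ⟨h2', h3', h4', h5'⟩⟩ := hw'
        · exfalso
          simp only [dec, h2', h2.ne, if_true, if_false] at h
          have := congrArg List.length h
          rw [List.length_append] at this
          omega
        · simp only [dec, h2.ne, h2'.ne, if_false] at h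
          have hp : p = p' := Prod.ext (h1.trans h1'.symm) (Subtype.ext h)
          subst hp
          rw [h5, h5']

theorem dec_surjective (hR0 : 0 < R) (n : ℕ) (x : List A) (hn : x.length ≤ n)
    (s : σ) (hx : x.foldl step s ∈ acc) :
    ∃ w : List (Letter σ A R), Valid step acc y0 R s w ∧ dec step y0 R s w = x := by
  induction n generalizing x s with
  | zero =>
    have hx0 : x = [] := List.length_eq_zero_iff.1 (by omega)
    subst hx0
    by_cases hy : [] = y0 s
    · exact ⟨[], trivial, hy.symm⟩
    · refine ⟨[(s, ⟨[], by simp⟩)], ⟨rfl, Or.inr ⟨by simpa using hR0, hx, hy, rfl⟩⟩, ?_⟩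
      simp [dec, hR0.ne]
  | succ n ih =>
    rcases Nat.lt_or_ge x.length R with hlt | hge
    · by_cases hy : x = y0 s
      · exact ⟨[], trivial, hy.symm⟩
      · refine ⟨[(s, ⟨x, hlt.le⟩)], ⟨rfl, Or.inr ⟨hlt, hx, hy, rfl⟩⟩, ?_⟩
        simp [dec, hlt.ne]
    · have hlen : (x.take R).length = R := by simp [hge]
      have hx' : (x.drop R).foldl step ((x.take R).foldl step s) ∈ acc := by
        rw [← List.foldl_append, List.take_append_drop]
        exact hx
      obtain ⟨w, hw, hwd⟩ := ih (x.drop R) (by simp; omega) ((x.take R).foldl step s) hx'
      refine ⟨(s, ⟨x.take R, hlen.le⟩) :: w, ⟨rfl, Or.inl ⟨hlen, ⟨_, hx'⟩, hw⟩⟩, ?_⟩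
      simp only [dec, hlen, if_true, hwd, List.take_append_drop]

theorem valid_take (w : List (Letter σ A R)) (s : σ) (hw : Valid step acc y0 R s w) (i : ℕ) :
    Valid step acc y0 R s (w.take i) := by
  induction w generalizing s i with
  | nil => simp [Valid]
  | cons p w ih =>
    cases i with
    | zero => simp [Valid]
    | succ i =>
      rw [List.take_succ_cons]
      obtain ⟨h1, ⟨h2, h3, h4⟩ | ⟨h2, h3, h4, rfl⟩⟩ := hw
      · exact ⟨h1, Or.inl ⟨h2, h3, ih _ h4 i⟩⟩
      · exact ⟨h1, Or.inr ⟨h2, h3, h4, by simp⟩⟩

theorem take_dec (hR : ∀ s, (y0 s).length < R) (w : List (Letter σ A R)) (s : σ)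
    (hw : Valid step acc y0 R s w) (i : ℕ) :
    ∃ h ∈ insert (1 : G) (Set.range fun s => value ev (y0 s)),
      value (lv ev step y0 R) (w.take i) =
        (value ev (y0 s))⁻¹ * value ev ((dec step y0 R s w).take (i * R)) * h := by
  induction w generalizing s i with
  | nil =>
    cases i with
    | zero => exact ⟨value ev (y0 s), Or.inr ⟨s, rfl⟩, by simp⟩
    | succ i =>
      refine ⟨1, Or.inl rfl, ?_⟩
      have : (dec step y0 R s ([] : List (Letter σ A R))).take ((i + 1) * R) = y0 s := by
        rw [dec, List.take_of_length_le]
        have := hR s
        nlinarith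
      rw [this]
      simp
  | cons p w ih =>
    cases i with
    | zero => exact ⟨value ev (y0 s), Or.inr ⟨s, rfl⟩, by simp⟩
    | succ i =>
      rw [List.take_succ_cons, value_cons]
      obtain ⟨rfl, ⟨h2, h3, h4⟩ | ⟨h2, h3, h4, rfl⟩⟩ := hw
      · obtain ⟨h, hh, heq⟩ := ih _ h4 i
        refine ⟨h, hh, ?_⟩
        rw [heq]
        have : (dec step y0 R p.1 (p :: w)).take ((i + 1) * R) =
            p.2.1 ++ (dec step y0 R (p.2.1.foldl step p.1) w).take (i * R) := by
          simp only [dec, h2, if_true]
          rw [List.take_append, List.take_of_length_le (by rw [h2]; nlinarith)]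
          congr 2
          rw [h2, Nat.add_mul, one_mul, Nat.add_sub_cancel]
        rw [this]
        simp only [lv, h2, if_true, value_append]
        group
      · refine ⟨1, Or.inl rfl, ?_⟩
        have : (dec step y0 R p.1 [p]).take ((i + 1) * R) = p.2.1 := by
          simp only [dec, h2.ne, if_false]
          rw [List.take_of_length_le]
          nlinarith
        rw [this]
        simp [lv, h2.ne]

/-- step function of an automaton for the new language; the states are: dead, ended, or a state -/
noncomputable def vstep (step : σ → A → σ) (acc : Set σ) (y0 : σ → List A) (R : ℕ)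
    (t : Option (Option σ)) (p : Letter σ A R) : Option (Option σ) := by
  classical
  exact match t with
  | none => none
  | some none => none
  | some (some s) =>
    if p.1 = s ∧ p.2.1.length = R ∧ Live step acc (p.2.1.foldl step s) then
      some (some (p.2.1.foldl step s))
    else if p.1 = s ∧ p.2.1.length < R ∧ p.2.1.foldl step s ∈ acc ∧ p.2.1 ≠ y0 s then
      some none
    else none

theorem vstep_none (w : List (Letter σ A R)) :
    w.foldl (vstep step acc y0 R) none = none := by
  induction w with
  | nil => rfl
  | cons p w ih => exact ih

theorem vstep_iff (w : List (Letter σ A R)) (s : σ) :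
    w.foldl (vstep step acc y0 R) (some (some s)) ≠ none ↔ Valid step acc y0 R s w := by
  classical
  induction w generalizing s with
  | nil => simp [Valid]
  | cons p w ih =>
    rw [List.foldl_cons]
    by_cases h1 : p.1 = s ∧ p.2.1.length = R ∧ Live step acc (p.2.1.foldl step s)
    · have e1 : vstep step acc y0 R (some (some s)) p = some (some (p.2.1.foldl step s)) := by
        simp only [vstep]
        rw [if_pos h1]
      rw [e1, ih]
      constructor
      · intro h2
        exact ⟨h1.1, Or.inl ⟨h1.2.1, h1.2.2, h2⟩⟩
      · rintro ⟨-, ⟨-, -, h2⟩ | ⟨h2, -⟩⟩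
        · exact h2
        · exact absurd h1.2.1 h2.ne
    · by_cases h2 : p.1 = s ∧ p.2.1.length < R ∧ p.2.1.foldl step s ∈ acc ∧ p.2.1 ≠ y0 s
      · have e1 : vstep step acc y0 R (some (some s)) p = some none := by
          simp only [vstep]
          rw [if_neg h1, if_pos h2]
        rw [e1]
        cases w with
        | nil =>
          simp only [List.foldl_nil, ne_eq, reduceCtorEq, not_false_eq_true, true_iff]
          exact ⟨h2.1, Or.inr ⟨h2.2.1, h2.2.2.1, h2.2.2.2, rfl⟩⟩
        | cons q w =>
          have e2 : (q :: w).foldl (vstep step acc y0 R) (some none) = none := by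
            rw [List.foldl_cons]
            exact vstep_none w
          rw [e2]
          simp only [ne_eq, not_true_eq_false, false_iff]
          rintro ⟨-, ⟨h3, -⟩ | ⟨-, -, -, h3⟩⟩
          · exact absurd h3 h2.2.1.ne
          · simp at h3
      · have e1 : vstep step acc y0 R (some (some s)) p = none := by
          simp only [vstep]
          rw [if_neg h1, if_neg h2]
        rw [e1, vstep_none]
        simp only [ne_eq, not_true_eq_false, false_iff]
        rintro ⟨h0, ⟨h3, h4, -⟩ | ⟨h3, h4, h5, -⟩⟩
        · exact h1 ⟨h0, h3, h4⟩
        · exact h2 ⟨h0, h3, h4, h5⟩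

end Block

/-- Let `G` be a group with an automatic structure `L` over some finite alphabet `A`.
Then there is a finite subset `F` of `G` such that for every finite alphabet `B` mapped to `G` so
that the image contains `F` there is an automatic structure `T` on `G` over this alphabet `B` which
is prefix-closed and has the uniqueness property. -/
theorem large {G : Type u} [Group G] {A : Type v} [Finite A] (ev : A → G) (L : Language A)
    (h : IsAutomaticStructure ev L) :
    ∃ F : Finset G, ∀ (B : Type w) [Finite B] (ew : B → G), (∀ g ∈ F, ∃ b : B, ew b = g) →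
      ∃ T : Language B, IsAutomaticStructure ew T ∧ PrefixClosed T ∧ Uniqueness ew T := by
  classical
  obtain ⟨L', hL'L, hL'reg, honto, huniq⟩ := exists_unique_sub ev L h
  have hFT : ∀ g, FT ev L' g := fun g => FT_mono ev L L' hL'L g (FT_all ev L h g)
  obtain ⟨σ, hσ, step, s0, acc, hacc⟩ := exists_fold hL'reg
  have hy : ∀ s : σ, ∃ y : List A, Live step acc s → y.foldl step s ∈ acc := by
    intro s
    by_cases hs : Live step acc s
    · obtain ⟨x, hx⟩ := hs
      exact ⟨x, fun _ => hx⟩
    · exact ⟨[], fun h' => absurd h' hs⟩
  choose y0 hy0 using hy
  obtain ⟨N, hN⟩ : ∃ N, ∀ s, (y0 s).length ≤ N := by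
    obtain ⟨N, hN⟩ := (Set.finite_range fun s => (y0 s).length).bddAbove
    exact ⟨N, fun s => hN ⟨s, rfl⟩⟩
  set R := N + 1 with hRdef
  have hR0 : 0 < R := Nat.succ_pos N
  have hR : ∀ s, (y0 s).length < R := fun s => Nat.lt_succ_of_le (hN s)
  have hs0 : Live step acc s0 := by
    obtain ⟨w, hw, -⟩ := honto 1
    exact ⟨w, (hacc w).1 hw⟩
  have hfinW : Finite {u : List A // u.length ≤ R} := (List.finite_length_le A R).to_subtype
  have hfinL : Finite (Letter σ A R) := inferInstance
  refine ⟨(Set.finite_range (lv ev step y0 R)).toFinset, ?_⟩
  intro B hBfin ew hcov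
  have hsec : ∀ p : Letter σ A R, ∃ b : B, ew b = lv ev step y0 R p := by
    intro p
    exact hcov _ (by simp)
  choose φ hφ using hsec
  set T0 : Language (Letter σ A R) := {w | Valid step acc y0 R s0 w} with hT0
  have hT0reg : T0.IsRegular := by
    refine isRegular_of_fold (vstep step acc y0 R) (some (some s0)) {t | t ≠ none} T0 ?_
    intro w
    exact (vstep_iff w s0).symm
  set T : Language B := {x | ∃ w ∈ T0, w.map φ = x} with hT
  have hTreg : T.IsRegular := isRegular_image φ hT0reg T (fun w => Iff.rfl)
  have hval : ∀ w : List (Letter σ A R),
      value ew (w.map φ) = value (lv ev step y0 R) w := by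
    intro w
    exact value_map _ _ φ hφ w
  have hTonto : ∀ g : G, ∃ w ∈ T, value ew w = g := by
    intro g
    obtain ⟨x, hx, hxg⟩ := honto (value ev (y0 s0) * g)
    obtain ⟨w, hw, hwx⟩ := dec_surjective (y0 := y0) hR0 x.length x le_rfl s0 ((hacc x).1 hx)
    refine ⟨w.map φ, ⟨w, hw, rfl⟩, ?_⟩
    rw [hval, value_lv ev w s0 hw, hwx, hxg]
    group
  refine ⟨T, ?_, ?_, ?_⟩
  · refine automatic_of_FT _ T ?_ hTreg hTonto ?_
    · rw [eq_top_iff]
      rintro g -
      obtain ⟨w, -, rfl⟩ := hTonto g
      induction w with
      | nil => exact Submonoid.one_mem _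
      | cons b w ih =>
        rw [value_cons]
        exact Submonoid.mul_mem _ (Submonoid.subset_closure ⟨b, rfl⟩) ih
    · intro g
      obtain ⟨D, hD, hD'⟩ := hFT g
      set H : Set G := insert (1 : G) (Set.range fun s => value ev (y0 s)) with hH
      have hHfin : H.Finite := (Set.finite_range _).insert _
      refine ⟨Set.image2 (fun a b => a⁻¹ * b) H (Set.image2 (· * ·) D H),
        hHfin.image2 _ (hD.image2 _ hHfin), ?_⟩
      rintro _ ⟨w, hw, rfl⟩ _ ⟨w', hw', rfl⟩ hww i
      rw [hval, hval, value_lv ev w s0 hw, value_lv ev w' s0 hw'] at hww
      have h1 : value ev (dec step y0 R s0 w) * g = value ev (dec step y0 R s0 w') := by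
        have := congrArg (fun t => value ev (y0 s0) * t) hww
        simpa [mul_assoc] using this
      have hdw : dec step y0 R s0 w ∈ L' := (hacc _).2 (dec_mem hy0 w s0 hs0 hw)
      have hdw' : dec step y0 R s0 w' ∈ L' := (hacc _).2 (dec_mem hy0 w' s0 hs0 hw')
      have h2 := hD' _ hdw _ hdw' h1 (i * R)
      obtain ⟨a, ha, hae⟩ := take_dec ev hR w s0 hw i
      obtain ⟨a', ha', hae'⟩ := take_dec ev hR w' s0 hw' i
      rw [← List.map_take, ← List.map_take, hval, hval, hae, hae']
      refine ⟨a, ha, _, ⟨_, h2, a', ha', rfl⟩, ?_⟩
      simp only
      group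
  · rintro u _ ⟨w, hw, rfl⟩ huv
    have hu : u = (w.take u.length).map φ := by
      rw [List.map_take]
      exact (List.prefix_iff_eq_take.1 huv)
    rw [hu]
    exact ⟨w.take u.length, valid_take w s0 hw _, rfl⟩
  · intro g
    obtain ⟨x, hx, hxg⟩ := hTonto g
    refine ⟨x, ⟨hx, hxg⟩, ?_⟩
    rintro x' ⟨hx', hxg'⟩
    have hww := hxg'.trans hxg.symm
    obtain ⟨w', hw', rfl⟩ := hx
    obtain ⟨w, hw, rfl⟩ := hx'
    rw [hval, hval, value_lv ev w s0 hw, value_lv ev w' s0 hw'] at hww
    have h1 : value ev (dec step y0 R s0 w) = value ev (dec step y0 R s0 w') :=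
      mul_left_cancel hww
    have hdw : dec step y0 R s0 w ∈ L' := (hacc _).2 (dec_mem hy0 w s0 hs0 hw)
    have hdw' : dec step y0 R s0 w' ∈ L' := (hacc _).2 (dec_mem hy0 w' s0 hs0 hw')
    rw [dec_injective hR w w' s0 hw hw' (huniq _ hdw _ hdw' h1)]

/-- **Theorem.** Let `G` be a group with an automatic structure `L` over some finite alphabet `A`.
(Q2) There are a finite alphabet and an automatic structure on `G` over it which is prefix-closed
and has the uniqueness property. (Q1 for large alphabets) More: there is a finite subset `F` of `G`
such that such a structure exists over every finite alphabet `B` mapped to `G` so that the image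
contains `F`. -/
theorem result {G : Type u} [Group G] {A : Type v} [Finite A] (ev : A → G) (L : Language A)
    (h : IsAutomaticStructure ev L) :
    (∃ (n : ℕ) (ew : Fin n → G) (T : Language (Fin n)),
      IsAutomaticStructure ew T ∧ PrefixClosed T ∧ Uniqueness ew T) ∧
    ∃ F : Finset G, ∀ (B : Type w) [Finite B] (ew : B → G), (∀ g ∈ F, ∃ b : B, ew b = g) →
      ∃ T : Language B, IsAutomaticStructure ew T ∧ PrefixClosed T ∧ Uniqueness ew T := by
  refine ⟨?_, large ev L h⟩
  obtain ⟨F, hF⟩ := large.{u, v, 0} ev L h
  obtain ⟨T, hT⟩ := hF (Fin F.card) (fun i => (F.equivFin.symm i : G))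
    (fun g hg => ⟨F.equivFin ⟨g, hg⟩, by simp⟩)
  exact ⟨_, _, T, hT⟩

end Pool.Agent.Results.MP_7de2ad_al.LargeAlphabets
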