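import Pool.Agent.H47.VA.Main

/-!
# Prefix-closed automatic structures with uniqueness: virtually abelian groups, every alphabet

(question Q1 of the problem file for all virtually abelian groups)

Idea: a tree language is a regular prefix-closed language whose words have different values and
with the fellow traveller property for all group elements. Starting with the empty word we build
tree languages whose images are within bounded distance of larger and larger subgroups of a normal
abelian subgroup `N` of finite index. For a new direction `t` in `N`, loop erasure of a periodic
path gives a self-avoiding periodic path in the direction of `t`, and another one in the opposite
direction. From sparse base points of the tree (a coset of a deep subgroup of finite index, by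
residual finiteness) we add these rays, each from the point where it leaves the old tree for the
last time; so all the new words have different values, and the new language is regular and has the
fellow traveller property. At the end the image is coarsely dense in `G`, and the extension theorem
of `MP_7de2ad_al.CoarseTrees` gives a prefix-closed automatic structure with uniqueness.

`value`, `multiplier`, `IsAutomaticStructure`, `PrefixClosed` and `Uniqueness` are defined in
`Pool/Agent/H47/CD/Tool.lean`, exactly as in `MP_7de2ad_al.LargeAlphabets`.
-/

namespace Pool.Agent.Results.MP_7de2ad_al.VirtuallyAbelian

open Pool.Agent.H47.CD Pool.Agent.H47.VA

universe u v

/-- Let `G` be a group with an abelian subgroup `N` of finite index, and let the finite alphabet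
`A` generate `G` as a monoid. Then `G` has a prefix-closed automatic structure with uniqueness
over `A`. -/
theorem result {G : Type u} [Group G] (N : Subgroup G) (hindex : N.FiniteIndex)
    (habelian : ∀ x ∈ N, ∀ y ∈ N, x * y = y * x)
    {A : Type v} [Finite A] (ev : A → G) (hgen : Submonoid.closure (Set.range ev) = ⊤) :
    ∃ T : Language A, IsAutomaticStructure ev T ∧ PrefixClosed T ∧ Uniqueness ev T :=
  virtually_abelian ev hgen N habelian

end Pool.Agent.Results.MP_7de2ad_al.VirtuallyAbelian
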